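import Pool.Agent.MWGI.StmtsN

set_option autoImplicit false

/-!
# Row WEX of squad MWGI (MP_23468a_al): exponents in canonical words
-/

namespace Pool.Agent.MWGI.H50

open Pool.Agent.Helper14_MV Pool.Agent.Helper2_MV Pool.Agent.MVO Pool.Agent.MWL Pool.Agent.MWS
  Pool.Agent.MWH

/-- from steps by `n` to congruence mod `n` -/
theorem steps {R : ℕ → ℕ → Prop} (hr : ∀ a, R a a) (hs : ∀ a b, R a b → R b a)
    (ht : ∀ a b c, R a b → R b c → R a c) {n m : ℕ} (h : ∀ a, m ≤ a → R a (a + n)) {a b : ℕ}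
    (ha : m ≤ a) (hb : m ≤ b) (hab : a ≡ b [MOD n]) : R a b := by
  have key : ∀ a t, m ≤ a → R a (a + n * t) := by
    intro a t ha
    induction t with
    | zero => simpa using hr a
    | succ t ih =>
      have h1 := h (a + n * t) (by omega)
      have e : a + n * t + n = a + n * (t + 1) := by ring
      rw [e] at h1
      exact ht _ _ _ ih h1
  have key2 : ∀ a b, m ≤ a → a ≤ b → a ≡ b [MOD n] → R a b := by
    intro a b ha hle hab
    obtain ⟨t, e⟩ := (Nat.modEq_iff_dvd' hle).1 hab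
    have e2 : b = a + n * t := by omega
    rw [e2]
    exact key a t ha
  rcases Nat.le_total a b with h1 | h1
  · exact key2 a b ha h1 hab
  · exact hs _ _ (key2 b a hb h1 hab.symm)

theorem rr_trans {θ : FIC} {a b c : List ℕ} (h : RR θ a b) (h' : RR θ b c) : RR θ a c :=
  θ.trans h h'

theorem rep_split (a b : ℕ) : List.replicate (a + b) 0 = List.replicate a 0 ++ List.replicate b 0 :=
  List.replicate_add a b 0

/-- powers with exponents at least two -/
theorem pow_step {n : ℕ} {θ : FIC} (h : BI n (RR θ)) (P Q : List ℕ) {a b : ℕ} (ha : 2 ≤ a)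
    (hb : 2 ≤ b) (hab : a ≡ b [MOD n]) :
    RR θ (P ++ (List.replicate a 0 ++ Q)) (P ++ (List.replicate b 0 ++ Q)) := by
  refine steps (R := fun a b => RR θ (P ++ (List.replicate a 0 ++ Q))
    (P ++ (List.replicate b 0 ++ Q))) (fun a => RR.refl _) (fun a b h => h.symm)
    (fun a b c h h' => rr_trans h h') ?_ ha hb hab
  intro a ha
  have hp : RR θ (List.replicate 2 0) (List.replicate (n + 2) 0) := h.per
  have h1 := RR.append (RR.append (RR.refl (β := θ) P) hp)
    (RR.refl (β := θ) (List.replicate (a - 2) 0 ++ Q))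
  have e1 : P ++ List.replicate 2 0 ++ (List.replicate (a - 2) 0 ++ Q) =
      P ++ (List.replicate a 0 ++ Q) := by
    have e : a = 2 + (a - 2) := by omega
    conv_rhs => rw [e, rep_split]
    simp only [List.append_assoc]
  have e2 : P ++ List.replicate (n + 2) 0 ++ (List.replicate (a - 2) 0 ++ Q) =
      P ++ (List.replicate (a + n) 0 ++ Q) := by
    have e : a + n = (n + 2) + (a - 2) := by omega
    conv_rhs => rw [e, rep_split]
    simp only [List.append_assoc]
  rw [e1, e2] at h1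
  exact h1

theorem mul_one {w : List ℕ} (h : 2 ≤ w.count 1) : MVO.Sys.Mul [1] w := by
  intro a ha
  rw [List.mem_singleton.1 ha]
  exact h

/-- `x^n` in front of the light letter -/
theorem left_step {n : ℕ} {θ : FIC} (h : BI n (RR θ)) (P Q : List ℕ) (hm : 1 ∈ P ∨ 1 ∈ Q)
    {v a b : ℕ} (hv : 1 ≤ v) (ha : 1 ≤ a) (hb : 1 ≤ b) (hab : a ≡ b [MOD n]) :
    RR θ (P ++ (List.replicate a 0 ++ 1 :: (List.replicate v 0 ++ Q)))
      (P ++ (List.replicate b 0 ++ 1 :: (List.replicate v 0 ++ Q))) := by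
  refine steps (R := fun a b => RR θ (P ++ (List.replicate a 0 ++ 1 :: (List.replicate v 0 ++ Q)))
    (P ++ (List.replicate b 0 ++ 1 :: (List.replicate v 0 ++ Q)))) (fun a => RR.refl _)
    (fun a b h => h.symm) (fun a b c h h' => rr_trans h h') ?_ ha hb hab
  intro a ha
  obtain ⟨a, rfl⟩ : ∃ a', a = a' + 1 := ⟨a - 1, by omega⟩
  obtain ⟨v, rfl⟩ : ∃ v', v = v' + 1 := ⟨v - 1, by omega⟩
  have h1 := h.it (P ++ List.replicate a 0) [] [1] (List.replicate v 0 ++ Q) 0 (by
    apply mul_one
    have h2 : 1 ≤ P.count 1 + Q.count 1 := by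
      rcases hm with h3 | h3
      · have := List.count_pos_iff.2 h3; omega
      · have := List.count_pos_iff.2 h3; omega
    simp only [List.count_append, List.count_cons, List.count_nil]
    simp
    omega)
  have e1 : P ++ (List.replicate (a + 1) 0 ++ 1 :: (List.replicate (v + 1) 0 ++ Q)) =
      P ++ List.replicate a 0 ++ 0 :: ([] ++ ([1] ++ 0 :: (List.replicate v 0 ++ Q))) := by
    rw [rep_split a 1, List.replicate_succ (n := v)]
    simp [List.append_assoc]
  have e2 : P ++ (List.replicate (a + 1 + n) 0 ++ 1 :: (List.replicate (v + 1) 0 ++ Q)) =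
      P ++ List.replicate a 0 ++ 0 :: ([] ++ (List.replicate n 0 ++
        ([1] ++ 0 :: (List.replicate v 0 ++ Q)))) := by
    rw [rep_split (a + 1) n, rep_split a 1, List.replicate_succ (n := v)]
    simp [List.append_assoc]
  rw [e1, e2]
  exact h1

/-- `x^n` behind the light letter -/
theorem right_step {n : ℕ} {θ : FIC} (h : BI n (RR θ)) (P Q : List ℕ) (hm : 1 ∈ P ∨ 1 ∈ Q)
    {u a b : ℕ} (hu : 1 ≤ u) (ha : 1 ≤ a) (hb : 1 ≤ b) (hab : a ≡ b [MOD n]) :
    RR θ (P ++ (List.replicate u 0 ++ 1 :: (List.replicate a 0 ++ Q)))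
      (P ++ (List.replicate u 0 ++ 1 :: (List.replicate b 0 ++ Q))) := by
  refine steps (R := fun a b => RR θ (P ++ (List.replicate u 0 ++ 1 :: (List.replicate a 0 ++ Q)))
    (P ++ (List.replicate u 0 ++ 1 :: (List.replicate b 0 ++ Q)))) (fun a => RR.refl _)
    (fun a b h => h.symm) (fun a b c h h' => rr_trans h h') ?_ ha hb hab
  intro a ha
  obtain ⟨a, rfl⟩ : ∃ a', a = a' + 1 := ⟨a - 1, by omega⟩
  obtain ⟨u, rfl⟩ : ∃ u', u = u' + 1 := ⟨u - 1, by omega⟩
  have h1 := h.it (P ++ List.replicate u 0) [1] [] (List.replicate a 0 ++ Q) 0 (by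
    apply mul_one
    have h2 : 1 ≤ P.count 1 + Q.count 1 := by
      rcases hm with h3 | h3
      · have := List.count_pos_iff.2 h3; omega
      · have := List.count_pos_iff.2 h3; omega
    simp only [List.count_append, List.count_cons, List.count_nil]
    simp
    omega)
  have e1 : P ++ (List.replicate (u + 1) 0 ++ 1 :: (List.replicate (a + 1) 0 ++ Q)) =
      P ++ List.replicate u 0 ++ 0 :: ([1] ++ ([] ++ 0 :: (List.replicate a 0 ++ Q))) := by
    rw [rep_split u 1, List.replicate_succ (n := a)]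
    simp [List.append_assoc]
  have e2 : P ++ (List.replicate (u + 1) 0 ++ 1 :: (List.replicate (a + 1 + n) 0 ++ Q)) =
      P ++ List.replicate u 0 ++ 0 :: ([1] ++ (List.replicate n 0 ++
        ([] ++ 0 :: (List.replicate a 0 ++ Q)))) := by
    have e3 : a + 1 + n = n + (a + 1) := by omega
    rw [e3, rep_split n (a + 1), rep_split u 1, List.replicate_succ (n := a)]
    simp [List.append_assoc]
  rw [e1, e2]
  exact h1

theorem wz_split {n k i p : ℕ} (Z : ℕ → Bool) (hi : i ≤ k) (hp : p ≤ k) (hip : i ≠ p) :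
    ∃ P Q : List ℕ, (1 ∈ P ∨ 1 ∈ Q) ∧ ∀ u v, asm k (wz n i p Z u v) =
      P ++ (List.replicate u 0 ++ 1 :: (List.replicate v 0 ++ Q)) := by
  refine ⟨pre (wz n i p Z 0 0) i, suf (wz n i p Z 0 0) i (k - i), ?_, ?_⟩
  · have hb : 1 ∈ wz n i p Z 0 0 p := by
      unfold wz
      rw [if_neg (Ne.symm hip), if_pos rfl]
      simp
    rcases Nat.lt_or_gt_of_ne hip with h | h
    · right
      exact mem_suf.2 (Or.inr ⟨p, h, by omega, hb⟩)
    · left
      exact mem_pre.2 (Or.inr ⟨p, h, hb⟩)
  · intro u v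
    have hne : ∀ j, j ≠ i → wz n i p Z u v j = wz n i p Z 0 0 j := by
      intro j hj
      unfold wz
      rw [if_neg hj, if_neg hj]
    rw [asm_split hi, pre_congr (B' := wz n i p Z 0 0) (fun j hj => hne j (by omega)),
      suf_congr (B' := wz n i p Z 0 0) (fun j h1 _ => hne j (by omega))]
    have e : wz n i p Z u v i = List.replicate u 0 ++ 1 :: List.replicate v 0 := by
      unfold wz
      rw [if_pos rfl]
    rw [e]
    simp only [List.append_assoc, List.cons_append]

theorem wex : WexStmt := by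
  intro n k i p θ Z hB hi hp hip u v u1 v1 hu hv h1 h2
  obtain ⟨P, Q, hm, hW⟩ := wz_split (n := n) Z hi hp hip
  unfold Wz
  rw [hW u v, hW u1 v1]
  have s1 : RR θ (P ++ (List.replicate u 0 ++ 1 :: (List.replicate v 0 ++ Q)))
      (P ++ (List.replicate u1 0 ++ 1 :: (List.replicate v 0 ++ Q))) := by
    rcases h1 with rfl | ⟨h3, h4⟩ | ⟨h3, h4, h5⟩
    · exact RR.refl _
    · exact pow_step hB P _ h3 h4 hu
    · exact left_step hB P Q hm h5 h3 h4 hu
  have s2 : RR θ (P ++ (List.replicate u1 0 ++ 1 :: (List.replicate v 0 ++ Q)))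
      (P ++ (List.replicate u1 0 ++ 1 :: (List.replicate v1 0 ++ Q))) := by
    rcases h2 with rfl | ⟨h3, h4⟩ | ⟨h3, h4, h5⟩
    · exact RR.refl _
    · have h6 := pow_step hB (P ++ (List.replicate u1 0 ++ [1])) Q h3 h4 hv
      simpa [List.append_assoc] using h6
    · exact right_step hB P Q hm h5 h3 h4 hv
  exact rr_trans s1 s2

end Pool.Agent.MWGI.H50
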